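import Pool.Agent.Q239.Evict.Comp

/-!
# Eviction number of the generalized Petersen graph `GP(7,2)`: from masks to finite sets
-/

namespace Pool.Agent.Q239.Evict

open Finset

/-- the generalized Petersen graph `GP(7,2)` -/
def GP : SimpleGraph (Fin 14) where
  Adj u v := (nb u).testBit v = true
  symm := ⟨by decide⟩
  loopless := ⟨by decide⟩

instance : DecidableRel GP.Adj := fun u v => inferInstanceAs (Decidable ((nb u).testBit v = true))

theorem adj_iff (u v : Fin 14) : GP.Adj u v ↔ (nb u).testBit v = true := Iff.rfl

/-- the bit mask of a set of vertices -/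
def mask (D : Finset (Fin 14)) : ℕ := Nat.ofBits (fun i : Fin 14 => decide (i ∈ D))

theorem testBit_mask (D : Finset (Fin 14)) (i : Fin 14) :
    (mask D).testBit i = decide (i ∈ D) := by
  unfold mask
  rw [Nat.testBit_ofBits_lt _ _ i.isLt]

theorem mask_lt (D : Finset (Fin 14)) : mask D < 2 ^ 14 := Nat.ofBits_lt_two_pow _

theorem card_eq_cnt (D : Finset (Fin 14)) : D.card = cnt 14 (mask D) := by
  rw [cnt_eq, ← Fin.sum_univ_eq_sum_range (fun i => ((mask D).testBit i).toNat) 14]
  have : ∀ i : Fin 14, ((mask D).testBit i).toNat = if i ∈ D then 1 else 0 := by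
    intro i
    rw [testBit_mask]
    by_cases h : i ∈ D <;> simp [h]
  simp only [this]
  simp

theorem nb_lt (i : ℕ) : nb i < 2 ^ 14 := by
  unfold nb
  exact Nat.mod_lt _ (by norm_num)

theorem chk_mask (D : Finset (Fin 14)) : chk (mask D) = true :=
  allR_spec chk 14 0 chk_all _ (Nat.zero_le _) (by simpa using mask_lt D)

theorem domB_mask {D : Finset (Fin 14)} (h : IsDominating GP D) : domB (mask D) = true := by
  unfold domB
  rw [allB_iff]
  intro i hi
  have key : ∃ w : Fin 14, ((nb i ||| 2 ^ i) &&& mask D).testBit w = true := by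
    rcases h ⟨i, hi⟩ with h | ⟨w, hw, hadj⟩
    · refine ⟨⟨i, hi⟩, ?_⟩
      rw [Nat.testBit_and, testBit_mask, Nat.testBit_or]
      simp [h]
    · refine ⟨w, ?_⟩
      rw [Nat.testBit_and, testBit_mask, Nat.testBit_or]
      rw [adj_iff] at hadj
      simp only [Fin.val_mk] at hadj
      simp [hw, hadj]
  obtain ⟨w, hw⟩ := key
  rw [bne_iff_ne]
  intro h0
  rw [h0] at hw
  simp at hw

theorem mem_A_zero {D : Finset (Fin 14)} (h : IsDominating GP D) (hc : D.card ≤ 6) :
    (A 0).testBit (mask D) = true := by
  have h1 := chk_mask D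
  unfold chk at h1
  simp only [Bool.and_eq_true, Bool.or_eq_true, Bool.not_eq_true', Nat.ble_eq] at h1
  rcases h1.1.1 with (h2 | h2) | h2
  · rw [domB_mask h] at h2
    exact absurd h2 (by simp)
  · exact h2
  · rw [← card_eq_cnt] at h2
    omega

theorem mask_move {D : Finset (Fin 14)} {v w : Fin 14} (hv : v ∈ D) (hw : w ∉ D) :
    mask ((insert w D).erase v) = (mask D ^^^ 2 ^ (v : ℕ)) ^^^ 2 ^ (w : ℕ) := by
  have hvw : v ≠ w := fun h => hw (h ▸ hv)
  apply Nat.eq_of_testBit_eq
  intro i
  by_cases hi : i < 14
  · have e1 := testBit_mask ((insert w D).erase v) ⟨i, hi⟩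
    have e2 := testBit_mask D ⟨i, hi⟩
    simp only [Fin.val_mk] at e1 e2
    rw [e1, Nat.testBit_xor, Nat.testBit_xor, e2, Nat.testBit_two_pow, Nat.testBit_two_pow]
    have f1 : ((v : ℕ) = i) ↔ (⟨i, hi⟩ : Fin 14) = v := by
      constructor
      · intro h; exact Fin.ext h.symm
      · intro h; rw [← h]
    have f2 : ((w : ℕ) = i) ↔ (⟨i, hi⟩ : Fin 14) = w := by
      constructor
      · intro h; exact Fin.ext h.symm
      · intro h; rw [← h]
    simp only [f1, f2]
    by_cases c1 : (⟨i, hi⟩ : Fin 14) = v
    · have c2 : (⟨i, hi⟩ : Fin 14) ≠ w := by rw [c1]; exact hvw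
      rw [c1] at *
      simp [hv, hvw]
    · by_cases c2 : (⟨i, hi⟩ : Fin 14) = w
      · rw [c2] at *
        simp [hw, c1]
      · simp [c1, c2]
  · have l1 : mask ((insert w D).erase v) < 2 ^ i :=
      lt_of_lt_of_le (mask_lt _) (Nat.pow_le_pow_right (by norm_num) (by omega))
    have l2 : mask D < 2 ^ i :=
      lt_of_lt_of_le (mask_lt _) (Nat.pow_le_pow_right (by norm_num) (by omega))
    rw [Nat.testBit_lt_two_pow l1, Nat.testBit_xor, Nat.testBit_xor, Nat.testBit_lt_two_pow l2,
      Nat.testBit_two_pow, Nat.testBit_two_pow]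
    have := v.isLt
    have := w.isLt
    have f1 : ¬ ((v : ℕ) = i) := by omega
    have f2 : ¬ ((w : ℕ) = i) := by omega
    simp [f1, f2]

theorem mem_A {k : ℕ} {F : Finset (Finset (Fin 14))} (hF : IsEternalFamily GP k F) (hk : k ≤ 6) :
    ∀ j, j ≤ 7 → ∀ D ∈ F, (A j).testBit (mask D) = true := by
  intro j
  induction j with
  | zero =>
    intro _ D hD
    exact mem_A_zero (hF.dominating D hD) (by rw [hF.card_eq D hD]; exact hk)
  | succ j ih =>
    intro hj D hD
    have h1 := chk_mask D
    unfold chk at h1
    simp only [Bool.and_eq_true] at h1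
    have h2 := (allB_iff 7 _).1 h1.1.2 j (by omega)
    simp only [Bool.or_eq_true, Bool.not_eq_true'] at h2
    rcases h2 with (h2 | h2) | h2
    · rw [ih (by omega) D hD] at h2
      exact absurd h2 (by simp)
    · exact h2
    · exfalso
      unfold attackable at h2
      rw [anyB_iff] at h2
      obtain ⟨v, hv14, h2⟩ := h2
      simp only [Bool.and_eq_true, bne_iff_ne] at h2
      obtain ⟨⟨hvD, hne⟩, h2⟩ := h2
      have tv := testBit_mask D ⟨v, hv14⟩
      simp only [Fin.val_mk] at tv
      rw [tv, decide_eq_true_eq] at hvD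
      rcases hF.move D hD ⟨v, hv14⟩ hvD with h3 | ⟨w, hadj, hwD, hmem⟩
      · apply hne
        apply Nat.eq_of_testBit_eq
        intro i
        rw [Nat.testBit_and]
        by_cases hi : i < 14
        · have ti := testBit_mask D ⟨i, hi⟩
          simp only [Fin.val_mk] at ti
          rw [ti]
          by_cases hb : (nb v).testBit i = true
          · have := h3 ⟨i, hi⟩ hb
            simp [this]
          · rw [Bool.not_eq_true] at hb
            rw [hb]; simp
        · have l1 : nb v < 2 ^ i :=
            lt_of_lt_of_le (nb_lt _) (Nat.pow_le_pow_right (by norm_num) (by omega))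
          rw [Nat.testBit_lt_two_pow l1]
          simp
      · have h4 := (allB_iff 14 _).1 h2 w w.isLt
        simp only [Bool.or_eq_true, Bool.not_eq_true'] at h4
        rcases h4 with (h4 | h4) | h4
        · rw [adj_iff] at hadj
          simp only [Fin.val_mk] at hadj
          rw [hadj] at h4
          exact absurd h4 (by simp)
        · rw [testBit_mask, decide_eq_true_eq] at h4
          exact hwD h4
        · have h5 := ih (by omega) _ hmem
          rw [mask_move hvD hwD] at h5
          simp only [Fin.val_mk] at h5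
          rw [h5] at h4
          exact absurd h4 (by simp)

theorem lower {k : ℕ} {F : Finset (Finset (Fin 14))} (hF : IsEternalFamily GP k F) : 7 ≤ k := by
  by_contra hk
  obtain ⟨D, hD⟩ := hF.nonempty
  have := mem_A hF (by omega) 7 le_rfl D hD
  simp [A] at this

/-! ### Seven guards suffice -/

/-- the family of all transversals of the perfect matching `{i, i + 7}` -/
def fam : Finset (Finset (Fin 14)) :=
  univ.filter (fun D => ∀ i : Fin 7, (Fin.castAdd 7 i ∈ D ↔ Fin.natAdd 7 i ∉ D))

theorem mem_fam {D : Finset (Fin 14)} :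
    D ∈ fam ↔ ∀ i : Fin 7, (Fin.castAdd 7 i ∈ D ↔ Fin.natAdd 7 i ∉ D) := by
  simp [fam]

theorem fam_card {D : Finset (Fin 14)} (h : D ∈ fam) : D.card = 7 := by
  rw [mem_fam] at h
  have e : D.card = ∑ i : Fin (7 + 7), (if i ∈ D then 1 else 0) := by simp
  rw [e, Fin.sum_univ_add, ← Finset.sum_add_distrib]
  have : ∀ i : Fin 7, ((if Fin.castAdd 7 i ∈ D then 1 else 0) +
      (if Fin.natAdd 7 i ∈ D then 1 else 0) : ℕ) = 1 := by
    intro i
    have := h i
    by_cases h1 : Fin.natAdd 7 i ∈ D
    · have h2 : Fin.castAdd 7 i ∉ D := fun h3 => (this.1 h3) h1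
      rw [if_pos h1, if_neg h2]
    · have h2 : Fin.castAdd 7 i ∈ D := this.2 h1
      rw [if_neg h1, if_pos h2]
  simp only [this]
  simp

theorem spoke : ∀ i : Fin 7, GP.Adj (Fin.castAdd 7 i) (Fin.natAdd 7 i) := by
  decide

theorem fam_isEternal : IsEternalFamily GP 7 fam where
  nonempty := ⟨univ.filter (fun v : Fin 14 => (v : ℕ) < 7), by
    rw [mem_fam]
    intro i
    simp⟩
  card_eq D hD := fam_card hD
  dominating D hD := by
    rw [mem_fam] at hD
    intro v
    refine Fin.addCases (m := 7) (n := 7) (motive := fun v => v ∈ D ∨ ∃ w ∈ D, GP.Adj v w) ?_ ?_ v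
    · intro i
      by_cases h : Fin.castAdd 7 i ∈ D
      · exact Or.inl h
      · right
        have : Fin.natAdd 7 i ∈ D := by
          by_contra h2
          exact h ((hD i).2 h2)
        exact ⟨_, this, spoke i⟩
    · intro i
      by_cases h : Fin.natAdd 7 i ∈ D
      · exact Or.inl h
      · right
        exact ⟨_, (hD i).2 h, (spoke i).symm⟩
  move D hD v hv := by
    right
    have hD' := mem_fam.1 hD
    revert hv
    refine Fin.addCases (m := 7) (n := 7) (motive := fun v => v ∈ D →
      ∃ w, GP.Adj v w ∧ w ∉ D ∧ (insert w D).erase v ∈ fam) ?_ ?_ v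
    · intro i hv
      have hw := (hD' i).1 hv
      refine ⟨Fin.natAdd 7 i, spoke i, hw, ?_⟩
      rw [mem_fam]
      intro j
      have hj := hD' j
      have n1 : Fin.castAdd 7 j ≠ Fin.natAdd 7 i := by
        intro h
        have := congrArg Fin.val h
        simp at this
        omega
      have n2 : Fin.natAdd 7 j ≠ Fin.castAdd 7 i := by
        intro h
        have := congrArg Fin.val h
        simp at this
        omega
      by_cases hij : j = i
      · subst hij
        simp only [Finset.mem_erase, Finset.mem_insert, n1, n2, ne_eq, not_true_eq_false,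
          false_and, true_or, and_true, not_false_eq_true]
      · have n3 : Fin.castAdd 7 j ≠ Fin.castAdd 7 i := fun h =>
          hij (Fin.castAdd_injective _ _ h)
        have n4 : Fin.natAdd 7 j ≠ Fin.natAdd 7 i := fun h =>
          hij (by
            have := congrArg Fin.val h
            simp at this
            exact Fin.ext this)
        simp only [Finset.mem_erase, Finset.mem_insert, n1, n2, n3, n4, ne_eq, not_false_eq_true,
          true_and, false_or]
        exact hj
    · intro i hv
      have hw : Fin.castAdd 7 i ∉ D := fun h => (hD' i).1 h hv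
      refine ⟨Fin.castAdd 7 i, (spoke i).symm, hw, ?_⟩
      rw [mem_fam]
      intro j
      have hj := hD' j
      have n1 : Fin.castAdd 7 j ≠ Fin.natAdd 7 i := by
        intro h
        have := congrArg Fin.val h
        simp at this
        omega
      have n2 : Fin.natAdd 7 j ≠ Fin.castAdd 7 i := by
        intro h
        have := congrArg Fin.val h
        simp at this
        omega
      by_cases hij : j = i
      · subst hij
        simp only [Finset.mem_erase, Finset.mem_insert, n1, n2, ne_eq, not_true_eq_false,
          false_and, true_or, and_true, not_false_eq_true]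
      · have n3 : Fin.castAdd 7 j ≠ Fin.castAdd 7 i := fun h =>
          hij (Fin.castAdd_injective _ _ h)
        have n4 : Fin.natAdd 7 j ≠ Fin.natAdd 7 i := fun h =>
          hij (by
            have := congrArg Fin.val h
            simp at this
            exact Fin.ext this)
        simp only [Finset.mem_erase, Finset.mem_insert, n1, n2, n3, n4, ne_eq, not_false_eq_true,
          true_and, false_or]
        exact hj

theorem eviction_GP : evictionNumber GP = 7 := by
  unfold evictionNumber
  apply le_antisymm
  · exact Nat.sInf_le ⟨fam, fam_isEternal⟩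
  · refine le_csInf ⟨7, fam, fam_isEternal⟩ ?_
    rintro k ⟨F, hF⟩
    exact lower hF

/-! ### The independence number -/

theorem indep_card_le {D : Finset (Fin 14)} (h : GP.IsIndepSet (D : Set (Fin 14))) :
    D.card ≤ 5 := by
  have h1 := chk_mask D
  unfold chk at h1
  simp only [Bool.and_eq_true, Bool.or_eq_true, Bool.not_eq_true', Nat.ble_eq] at h1
  rcases h1.2 with h2 | h2
  · exfalso
    have : indepB (mask D) = true := by
      unfold indepB
      rw [allB_iff]
      intro i hi
      simp only [Bool.or_eq_true, Bool.not_eq_true', beq_iff_eq]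
      by_cases hiD : (⟨i, hi⟩ : Fin 14) ∈ D
      · right
        apply Nat.eq_of_testBit_eq
        intro j
        rw [Nat.testBit_and, Nat.zero_testBit]
        by_cases hj : j < 14
        · have tj := testBit_mask D ⟨j, hj⟩
          simp only [Fin.val_mk] at tj
          rw [tj]
          by_cases hjD : (⟨j, hj⟩ : Fin 14) ∈ D
          · by_cases hij : (⟨i, hi⟩ : Fin 14) = ⟨j, hj⟩
            · have hij' : i = j := congrArg Fin.val hij
              subst hij'
              have := GP.loopless.irrefl ⟨i, hi⟩
              rw [adj_iff] at this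
              simp only [Fin.val_mk, Bool.not_eq_true] at this
              rw [this]; simp
            · have := h (by exact_mod_cast hiD) (by exact_mod_cast hjD) hij
              change ¬ ((nb i).testBit j = true) at this
              rw [Bool.not_eq_true] at this
              rw [this]; simp
          · simp [hjD]
        · have l1 : nb i < 2 ^ j :=
            lt_of_lt_of_le (nb_lt _) (Nat.pow_le_pow_right (by norm_num) (by omega))
          rw [Nat.testBit_lt_two_pow l1]
          simp
      · left
        have ti := testBit_mask D ⟨i, hi⟩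
        simp only [Fin.val_mk] at ti
        rw [ti]
        simp [hiD]
    rw [this] at h2
    exact absurd h2 (by simp)
  · rw [← card_eq_cnt] at h2
    exact h2

theorem indep_five : GP.IsIndepSet (({2, 4, 6, 7, 8} : Finset (Fin 14)) : Set (Fin 14)) := by
  intro a ha b hb hab
  have key : ∀ a ∈ ({2, 4, 6, 7, 8} : Finset (Fin 14)), ∀ b ∈ ({2, 4, 6, 7, 8} : Finset (Fin 14)),
      ¬ GP.Adj a b := by decide
  exact key a (by exact_mod_cast ha) b (by exact_mod_cast hb)

theorem indepNum_GP : GP.indepNum = 5 := by
  apply le_antisymm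
  · obtain ⟨s, hs⟩ := GP.exists_isNIndepSet_indepNum
    rw [← hs.card_eq]
    exact indep_card_le hs.isIndepSet
  · have := SimpleGraph.IsIndepSet.card_le_indepNum indep_five
    simpa using this

end Pool.Agent.Q239.Evict
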